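import Pool.Agent.Helper49.RU.St

/-! Module QUA of the project RU: second moment of antilinear forms at phase vectors. -/

set_option autoImplicit false
set_option linter.unusedSectionVars false

namespace Pool.Agent.Helper94.RU

open Pool.Agent.Helper49.RU
open MeasureTheory Filter Topology Complex
open scoped ENNReal Cardinal ComplexConjugate

section

variable {J : Type} [Fintype J] [DecidableEq J]

/-- the relation of two pairs of letters -/
private def rl (a b c d : Fin 3) : Prop := (a = c ∧ b = d) ∨ (a = d ∧ b = c)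

private instance (a b c d : Fin 3) : Decidable (rl a b c d) := by
  unfold rl
  infer_instance

private theorem rl_symm {a b c d : Fin 3} (h : rl a b c d) : rl c d a b := by
  rcases h with ⟨h1, h2⟩ | ⟨h1, h2⟩
  · exact Or.inl ⟨h1.symm, h2.symm⟩
  · exact Or.inr ⟨h2.symm, h1.symm⟩

/-- the indicator of the relation -/
private noncomputable def ka (p p' : (J → Fin 3) × (J → Fin 3)) : ℝ :=
  ∏ j, if rl (p.1 j) (p.2 j) (p'.1 j) (p'.2 j) then (1 : ℝ) else 0

private theorem ka_nonneg (p p' : (J → Fin 3) × (J → Fin 3)) : 0 ≤ ka p p' := by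
  refine Finset.prod_nonneg fun j _ => ?_
  split_ifs <;> norm_num

private theorem ka_symm (p p' : (J → Fin 3) × (J → Fin 3)) : ka p p' = ka p' p := by
  refine Finset.prod_congr rfl fun j _ => ?_
  have : rl (p.1 j) (p.2 j) (p'.1 j) (p'.2 j) ↔ rl (p'.1 j) (p'.2 j) (p.1 j) (p.2 j) :=
    ⟨rl_symm, rl_symm⟩
  simp only [this]

private theorem cnt : ∀ a b : Fin 3,
    (Finset.univ.filter fun q : Fin 3 × Fin 3 => rl a b q.1 q.2).card ≤ 2 := by
  decide

private theorem ka_sum (p : (J → Fin 3) × (J → Fin 3)) :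
    ∑ p', ka p p' ≤ 2 ^ Fintype.card J := by
  have h1 : ∑ p', ka p p' = ∑ q : J → Fin 3 × Fin 3,
      ∏ j, (if rl (p.1 j) (p.2 j) (q j).1 (q j).2 then (1 : ℝ) else 0) := by
    refine (Fintype.sum_equiv (Equiv.arrowProdEquivProdArrow J (fun _ => Fin 3) (fun _ => Fin 3))
      _ _ fun q => ?_).symm
    rfl
  have h2 : ∑ q : J → Fin 3 × Fin 3,
      ∏ j, (if rl (p.1 j) (p.2 j) (q j).1 (q j).2 then (1 : ℝ) else 0) =
      ∏ j, ∑ q : Fin 3 × Fin 3, (if rl (p.1 j) (p.2 j) q.1 q.2 then (1 : ℝ) else 0) := by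
    rw [Finset.prod_univ_sum, Fintype.piFinset_univ]
  rw [h1, h2]
  calc ∏ j, ∑ q : Fin 3 × Fin 3, (if rl (p.1 j) (p.2 j) q.1 q.2 then (1 : ℝ) else 0)
      ≤ ∏ _j : J, (2 : ℝ) := by
        refine Finset.prod_le_prod (fun j _ => Finset.sum_nonneg fun q _ => ?_) fun j _ => ?_
        · split_ifs <;> norm_num
        · rw [Finset.sum_boole]
          exact_mod_cast cnt (p.1 j) (p.2 j)
    _ = 2 ^ Fintype.card J := by rw [Finset.prod_const, Finset.card_univ]

private theorem anti_zero {E : Type*} [NormedAddCommGroup E] [InnerProductSpace ℂ E] {B : E → E}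
    (hB : IsAnti B) : B 0 = 0 := by
  have := hB.2 0 0
  simpa using this

private theorem anti_sum {E : Type*} [NormedAddCommGroup E] [InnerProductSpace ℂ E] {B : E → E}
    (hB : IsAnti B) {ι : Type*} [DecidableEq ι] (S : Finset ι) (c : ι → ℂ) (u : ι → E) :
    B (∑ s ∈ S, c s • u s) = ∑ s ∈ S, conj (c s) • B (u s) := by
  induction S using Finset.induction_on with
  | empty => simpa using anti_zero hB
  | insert a S ha ih => rw [Finset.sum_insert ha, Finset.sum_insert ha, hB.1, hB.2, ih]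

private theorem form_eq {E : Type*} [NormedAddCommGroup E] [InnerProductSpace ℂ E] {B : E → E}
    (hB : IsAnti B) {ι : Type*} [Fintype ι] [DecidableEq ι] (c : ι → ℂ) (u : ι → E) :
    (inner ℂ (∑ s, c s • u s) (B (∑ s, c s • u s)) : ℂ) =
      ∑ p : ι × ι, (conj (c p.1) * conj (c p.2)) * inner ℂ (u p.1) (B (u p.2)) := by
  rw [anti_sum hB, sum_inner, Fintype.sum_prod_type]
  refine Finset.sum_congr rfl fun s _ => ?_
  rw [inner_sum]
  refine Finset.sum_congr rfl fun t _ => ?_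
  rw [inner_smul_left, inner_smul_right]
  ring

private theorem nf_real : conj (nf J) = nf J := by
  unfold nf
  exact Complex.conj_ofReal _

private theorem nf_pow : nf J ^ 4 * 9 ^ Fintype.card J = 1 := by
  have h3 : Real.sqrt 3 ^ 4 = 9 := by
    have h := Real.sq_sqrt (show (0 : ℝ) ≤ 3 by norm_num)
    calc Real.sqrt 3 ^ 4 = (Real.sqrt 3 ^ 2) ^ 2 := by ring
      _ = 9 := by rw [h]; norm_num
  have h4 : ((Real.sqrt 3 ^ Fintype.card J)⁻¹) ^ 4 * (9 : ℝ) ^ Fintype.card J = 1 := by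
    rw [inv_pow, ← pow_mul, mul_comm (Fintype.card J) 4, pow_mul, h3]
    exact inv_mul_cancel₀ (pow_ne_zero _ (by norm_num))
  unfold nf
  exact_mod_cast h4

/-- the weight of a pair -/
private noncomputable def we (p : (J → Fin 3) × (J → Fin 3)) (g : J → Q) : ℂ :=
  conj (nf J * chi p.1 g) * conj (nf J * chi p.2 g)

private theorem we_sum (hCHR : StCHR) (p p' : (J → Fin 3) × (J → Fin 3)) :
    ∑ g : J → Q, we p g * conj (we p' g) = (ka p p' : ℂ) := by
  have h1 : ∀ g : J → Q, we p g * conj (we p' g) = nf J ^ 4 *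
      ∏ j, (conj (chi0 (p.1 j) (g j)) * conj (chi0 (p.2 j) (g j)) * chi0 (p'.1 j) (g j) *
        chi0 (p'.2 j) (g j)) := by
    intro g
    unfold we chi
    simp only [map_mul, map_prod, nf_real, Complex.conj_conj, Finset.prod_mul_distrib]
    ring
  have h2 : ∑ g : J → Q, ∏ j, (conj (chi0 (p.1 j) (g j)) * conj (chi0 (p.2 j) (g j)) *
      chi0 (p'.1 j) (g j) * chi0 (p'.2 j) (g j)) =
      ∏ j, ∑ x : Q, conj (chi0 (p.1 j) x) * conj (chi0 (p.2 j) x) *
      chi0 (p'.1 j) x * chi0 (p'.2 j) x := by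
    rw [Finset.prod_univ_sum, Fintype.piFinset_univ]
  simp only [h1]
  rw [← Finset.mul_sum, h2]
  have h3 : ∀ j, (∑ x : Q, conj (chi0 (p.1 j) x) * conj (chi0 (p.2 j) x) *
      chi0 (p'.1 j) x * chi0 (p'.2 j) x) =
      9 * (if rl (p.1 j) (p.2 j) (p'.1 j) (p'.2 j) then (1 : ℂ) else 0) := by
    intro j
    rw [hCHR.2]
    unfold rl
    split_ifs <;> norm_num
  simp only [h3]
  rw [Finset.prod_mul_distrib, Finset.prod_const, Finset.card_univ, ← mul_assoc, nf_pow, one_mul]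
  unfold ka
  push_cast
  refine Finset.prod_congr rfl fun j _ => ?_
  split_ifs <;> norm_num

/-- the double sum bound -/
private theorem dbl (β : (J → Fin 3) × (J → Fin 3) → ℝ) :
    ∑ p, ∑ p', β p * β p' * ka p p' ≤ 2 ^ Fintype.card J * ∑ p, β p ^ 2 := by
  have h1 : ∀ p p', β p * β p' * ka p p' ≤ (β p ^ 2 * ka p p' + β p' ^ 2 * ka p p') / 2 := by
    intro p p'
    have h2 : β p * β p' ≤ (β p ^ 2 + β p' ^ 2) / 2 := by nlinarith [sq_nonneg (β p - β p')]
    have h3 := mul_le_mul_of_nonneg_right h2 (ka_nonneg p p')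
    calc β p * β p' * ka p p' ≤ (β p ^ 2 + β p' ^ 2) / 2 * ka p p' := h3
      _ = _ := by ring
  have h4 : ∑ p, ∑ p', β p ^ 2 * ka p p' ≤ 2 ^ Fintype.card J * ∑ p, β p ^ 2 := by
    rw [Finset.mul_sum]
    refine Finset.sum_le_sum fun p _ => ?_
    rw [← Finset.mul_sum, mul_comm]
    exact mul_le_mul_of_nonneg_right (ka_sum p) (sq_nonneg _)
  have h5 : ∑ p, ∑ p', β p' ^ 2 * ka p p' = ∑ p, ∑ p', β p ^ 2 * ka p p' := by
    rw [Finset.sum_comm]
    refine Finset.sum_congr rfl fun p _ => Finset.sum_congr rfl fun p' _ => ?_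
    rw [ka_symm]
  calc ∑ p, ∑ p', β p * β p' * ka p p'
      ≤ ∑ p, ∑ p', (β p ^ 2 * ka p p' + β p' ^ 2 * ka p p') / 2 :=
        Finset.sum_le_sum fun p _ => Finset.sum_le_sum fun p' _ => h1 p p'
    _ = (∑ p, ∑ p', β p ^ 2 * ka p p' + ∑ p, ∑ p', β p' ^ 2 * ka p p') / 2 := by
        simp only [← Finset.sum_div, Finset.sum_add_distrib]
    _ = ∑ p, ∑ p', β p ^ 2 * ka p p' := by rw [h5]; ring
    _ ≤ _ := h4

end

theorem hQUA (hCHR : StCHR) : StQUA := by
  intro J _ _ E _ _ u B R hu hB hR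
  have hb : ∀ t : J → Fin 3, ∑ s, ‖(inner ℂ (u s) (B (u t)) : ℂ)‖ ^ 2 ≤ R ^ 2 := by
    intro t
    have h1 := hu.sum_inner_products_le (x := B (u t)) (s := Finset.univ)
    have h2 : ‖B (u t)‖ ≤ R := by
      have := hR (u t)
      rwa [hu.1 t, mul_one] at this
    exact h1.trans (pow_le_pow_left₀ (norm_nonneg _) h2 2)
  obtain ⟨bp, hbp⟩ : ∃ bp : (J → Fin 3) × (J → Fin 3) → ℂ,
      bp = fun p => inner ℂ (u p.1) (B (u p.2)) := ⟨_, rfl⟩
  have hX : ∀ g : J → Q, (inner ℂ (∑ s, (nf J * chi s g) • u s)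
      (B (∑ s, (nf J * chi s g) • u s)) : ℂ) = ∑ p, we p g * bp p := by
    intro g
    rw [form_eq hB, hbp]
    rfl
  have hsq : ((∑ g : J → Q, ‖(inner ℂ (∑ s, (nf J * chi s g) • u s)
      (B (∑ s, (nf J * chi s g) • u s)) : ℂ)‖ ^ 2 : ℝ) : ℂ) =
      ∑ p, ∑ p', (bp p * conj (bp p')) * (ka p p' : ℂ) := by
    have h1 : ∀ g : J → Q, ((‖(inner ℂ (∑ s, (nf J * chi s g) • u s)
        (B (∑ s, (nf J * chi s g) • u s)) : ℂ)‖ ^ 2 : ℝ) : ℂ) =
        ∑ p, ∑ p', (bp p * conj (bp p')) * (we p g * conj (we p' g)) := by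
      intro g
      rw [hX g, Complex.ofReal_pow, ← Complex.mul_conj', map_sum, Finset.sum_mul_sum]
      refine Finset.sum_congr rfl fun p _ => Finset.sum_congr rfl fun p' _ => ?_
      rw [map_mul]
      ring
    rw [Complex.ofReal_sum]
    simp only [h1]
    rw [Finset.sum_comm]
    refine Finset.sum_congr rfl fun p _ => ?_
    rw [Finset.sum_comm]
    refine Finset.sum_congr rfl fun p' _ => ?_
    rw [← Finset.mul_sum, we_sum hCHR]
  have hnn : 0 ≤ ∑ g : J → Q, ‖(inner ℂ (∑ s, (nf J * chi s g) • u s)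
      (B (∑ s, (nf J * chi s g) • u s)) : ℂ)‖ ^ 2 :=
    Finset.sum_nonneg fun g _ => sq_nonneg _
  have hle : ∑ g : J → Q, ‖(inner ℂ (∑ s, (nf J * chi s g) • u s)
      (B (∑ s, (nf J * chi s g) • u s)) : ℂ)‖ ^ 2 ≤
      ∑ p, ∑ p', ‖bp p‖ * ‖bp p'‖ * ka p p' := by
    have h1 := congrArg norm hsq
    rw [Complex.norm_real, Real.norm_of_nonneg hnn] at h1
    rw [h1]
    refine (norm_sum_le _ _).trans (Finset.sum_le_sum fun p _ =>
      (norm_sum_le _ _).trans (Finset.sum_le_sum fun p' _ => ?_))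
    rw [norm_mul, norm_mul, RCLike.norm_conj, Complex.norm_real,
      Real.norm_of_nonneg (ka_nonneg p p')]
  have hbs : ∑ p, ‖bp p‖ ^ 2 ≤ 3 ^ Fintype.card J * R ^ 2 := by
    rw [Fintype.sum_prod_type, Finset.sum_comm, hbp]
    calc ∑ t : J → Fin 3, ∑ s : J → Fin 3, ‖(inner ℂ (u s) (B (u t)) : ℂ)‖ ^ 2
        ≤ ∑ _t : J → Fin 3, R ^ 2 := Finset.sum_le_sum fun t _ => hb t
      _ = 3 ^ Fintype.card J * R ^ 2 := by
          rw [Finset.sum_const, Finset.card_univ, nsmul_eq_mul]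
          simp
  calc _ ≤ ∑ p, ∑ p', ‖bp p‖ * ‖bp p'‖ * ka p p' := hle
    _ ≤ 2 ^ Fintype.card J * ∑ p, ‖bp p‖ ^ 2 := dbl _
    _ ≤ 2 ^ Fintype.card J * (3 ^ Fintype.card J * R ^ 2) :=
        mul_le_mul_of_nonneg_left hbs (by positivity)
    _ = 6 ^ Fintype.card J * R ^ 2 := by
        rw [← mul_assoc, ← mul_pow]
        norm_num

end Pool.Agent.Helper94.RU
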